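import Pool.Agent.helper96.SP.SixC
import Pool.Agent.helper33.SP.SpecC1S
import Pool.Agent.helper98.SP.SpecGA
import Pool.Agent.helper61.TP.SpecR

/-!
# Project sp, piece C2P: the strong pair pattern of the pivotal set (`U1ii_stmt`)

Modules `PP1`, ..., file `Pool/Agent/<seat>/SP/PPxx.lean`, `theorem PPxx ... : PPxx_stmt`, namespace
`TP`, `import Pool.Agent.helper3.SP.SpecPP`. Any statement of the other specification files may be a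
hypothesis.

Overview. `YCv` is an event in an annulus around `x` (two gates; four arms through the block for every
recolouring of one brick of the forbidden region to white; no four arms through the block after
recolouring a suitable brick near `y`). Together with a pivotal site near `x` it gives the pair
pattern (`PP1`, `PP2`, `PP3`). Its probability is bounded from below (`PL_stmt`) by a construction: six
blocks (inner gate, core near `y`, three annuli with six standard arms, outer gate) joined by wires,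
that is by chains of loops (`PP10` ... `PP36`). The core near `y` (`PK1` ... `PK7`) is a gate with a
pivotal brick inside, from an exploration inequality.
-/

namespace TP

open DP MeasureTheory

/-! ## Deterministic use of the event -/

/-- A connection between far terminals. -/
def Hcn (W A B : Set V) (c : V → Bool) : Prop := ∃ u ∈ A, ∃ v ∈ B, Conn c true W u v

/-- The event (of the colouring) for the pair pattern. -/
def YCv (c : V → Bool) (x y : V) (m₁ n₁ m₂ n₂ r R : ℕ) : Prop :=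
  Gate c x m₁ n₁ ∧ Gate c x m₂ n₂ ∧
    (∀ w : V, (w.1 + w.2) % 2 = 0 → w ∈ WS x y r R → four (rc c w false) x m₁ n₂) ∧
    ∃ z : V, (z.1 + z.2) % 2 = 0 ∧ sd y z ≤ r ∧ ¬ four (rc c z false) x m₁ n₂

/-- Deterministic. `z` of `YCv`: if `Hcn (rc c z false)`, then (`UJ11` for `rc c z false` and
`rc (rc c z false) v false`, there are no four arms) `Hcn (rc (rc c z false) v false)`, hence
`Hcn (rc c v false)` by monotonicity. `w`: `four c x m₁ n₂` (otherwise `UJ11` for `c`, `rc c v false`),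
`four (rc c w false) x m₁ n₂` (`YCv`), and `UJ12` for `c`, `rc c w false`. -/
def PP1_stmt : Prop :=
  ∀ (c : V → Bool) (x y v : V) (m₁ n₁ m₂ n₂ r R t : ℕ) (W A B : Set V), t + 2 ≤ m₁ → m₁ < n₁ →
    n₁ + 1 ≤ r → n₁ < m₂ → R + 1 ≤ m₂ → m₂ < n₂ → sd x v ≤ t → box x n₂ ⊆ W →
    (∀ u ∈ A, n₂ ≤ sd x u) → (∀ u ∈ B, n₂ ≤ sd x u) → YCv c x y m₁ n₁ m₂ n₂ r R → Hcn W A B c →
    ¬ Hcn W A B (rc c v false) →
      (∃ z : V, (z.1 + z.2) % 2 = 0 ∧ sd y z ≤ r ∧ ¬ Hcn W A B (rc c z false)) ∧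
        ∀ w : V, (w.1 + w.2) % 2 = 0 → w ∈ WS x y r R → Hcn W A B (rc c w false)

/-- The crossing of the square and its complement as connection events of `col b` and `fl (col b)`
(`DP.HX_stmt`, `DP.RC_stmt`; `Conn (fl c) true` is `Conn c false`), and pivotal sites:
`rc (fl c) v false = fl (rc c v true)`. -/
def PP2_stmt : Prop :=
  ∀ (i : ℕ) (b : V → Bool) (v : V), v ∈ VV i →
    (b ∈ Fc i ↔ Hcn (rect 1 (2 * 2 ^ i) 0 (hh (2 ^ i))) {u | u.1 = 1} {u | u.1 = 2 * 2 ^ i}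
      (col b)) ∧
    (b ∉ Fc i ↔ Hcn (rect 1 (2 * 2 ^ i) 0 (hh (2 ^ i))) {u | u.2 = 0} {u | u.2 = hh (2 ^ i)}
      (fl (col b))) ∧
    (b ∈ Fc i → (v ∈ PV i b ↔ ¬ Hcn (rect 1 (2 * 2 ^ i) 0 (hh (2 ^ i))) {u | u.1 = 1}
      {u | u.1 = 2 * 2 ^ i} (rc (col b) v false))) ∧
    (b ∉ Fc i → (v ∈ PV i b ↔ ¬ Hcn (rect 1 (2 * 2 ^ i) 0 (hh (2 ^ i))) {u | u.2 = 0}
      {u | u.2 = hh (2 ^ i)} (rc (fl (col b)) v false)))

/-- From `PP1` and `PP2`, for both cases. (`n₂ ≤ sd x u` for `u` on the sides because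
`box x n₂ ⊆ rect ..`; the site `z` is in `VV i` because `box y r ⊆ box x n₂`.) -/
def PP3_stmt : Prop :=
  ∀ (i : ℕ) (b : V → Bool) (x y : V) (m₁ n₁ m₂ n₂ r R t : ℕ), t + 2 ≤ m₁ → m₁ < n₁ →
    n₁ + 1 ≤ r → n₁ < m₂ → R + 1 ≤ m₂ → m₂ < n₂ → sd x y + r ≤ n₂ →
    box x n₂ ⊆ rect 1 (2 * 2 ^ i) 0 (hh (2 ^ i)) → (∃ v ∈ PV i b, sd x v ≤ t) →
    ((b ∈ Fc i ∧ YCv (col b) x y m₁ n₁ m₂ n₂ r R) ∨
      (b ∉ Fc i ∧ YCv (fl (col b)) x y m₁ n₁ m₂ n₂ r R)) →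
      (∃ z ∈ PV i b, sd y z ≤ r) ∧ ∀ w ∈ PV i b, w ∉ WS x y r R

/-- The event of the block number `p`; `g` is the ratio of the gates, `q = p + m + 3 * s + m`. -/
def YPe (g : ℕ) (x : V) (p m s : ℕ) : Set (V → Bool) :=
  Ev fun c => YCv c x (yy true x (2 ^ (p + m + s))) (2 ^ (p - g - 4)) (2 ^ (p - 4))
    (2 ^ (p + m + 3 * s + m + 4)) (2 ^ (p + m + 3 * s + m + 4 + g)) (2 ^ (p + 1))
    (2 ^ (p + m + 3 * s + m - 1))

/-- Inclusion. From `PP3` (`PairS .. true ..` is its conclusion) and, for the four arms, `UJ11` in the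
contrapositive form (`PP2`: `Hcn (col b)`, not `Hcn (rc (col b) v false)`). -/
def PP4_stmt : Prop :=
  ∀ (g s : ℕ), 1 ≤ g → 2 ≤ s → ∀ (i N t m J : ℕ) (p : ℕ → ℕ) (x : V), 1 ≤ t → 2 ≤ m →
    (∀ j < J, t + g + 8 ≤ p j ∧ p j + m + 3 * s + m + 5 + g ≤ N) → t + 3 ≤ N →
    box x (2 ^ N) ⊆ rect 1 (2 * 2 ^ i) 0 (hh (2 ^ i)) →
      {b | (∃ v ∈ PV i b, sd x v ≤ 2 ^ (t + 1)) ∧ ∀ j < J, ¬ PairS (PV i b) true x (p j) m s} ⊆
        (F4 x (t + 2) N ∩ {b | ∀ j < J, b ∉ YPe g x (p j) m s}) ∪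
          {b | (fun v => !(b v)) ∈ F4 x (t + 2) N ∩ {b | ∀ j < J, b ∉ YPe g x (p j) m s}}

/-- Locality of the event (`four`, `Gate` are local: `K.LG_stmt`, `K.LQ_stmt`; `rc c w false` on the
annulus is determined by `c` on the annulus). -/
def PP5_stmt : Prop :=
  ∀ (g : ℕ) (x : V) (p m s : ℕ), g + 4 ≤ p → 1 ≤ m →
    Loc (YPe g x p m s) (ann x (2 ^ (p - g - 4)) (2 ^ (p + m + 3 * s + m + 4 + g)))

/-- THE LOWER BOUND (proved in the rest of this file). -/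
def PL_stmt : Prop :=
  ∃ g k₀ : ℕ, 1 ≤ g ∧ ∀ s : ℕ, k₀ ≤ s → ∃ c : ℝ, 0 < c ∧ ∀ (p m : ℕ) (x : V), k₀ ≤ p → k₀ ≤ m →
    (x.1 + x.2) % 2 = 0 →
      c * rat p m s * Pr (F4 x (p - g - 4) (p + m + 3 * s + m + 4 + g)) ≤
        Pr (YPe g x p m s ∩ B4 x (p - g - 4 - 1) (p + m + 3 * s + m + 4 + g + 1))

/-- FINAL STATEMENT. From `PP4` (with `N = i - k`), `PP5`, `PL`, `K.CHX_stmt` (with `t + 2`, all
`θ = 1 / 2`), the colour flip (`Bflip_stmt` with the identity), `UI7` and `UI8`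
(`a4 (t + 2) N ≤ C * a4 t N`). The event of `U1ii_stmt` is contained in that of `PP4`. -/
def PP6_stmt : Prop := PL_stmt → U1ii_stmt

/-! ## Wires -/

/-- A connected set of colour `k` in `R`. -/
def CnS (c : V → Bool) (k : Bool) (R U : Set V) : Prop :=
  (∀ v ∈ U, v ∈ R ∧ c v = k) ∧ ∀ z ∈ U, ∀ z' ∈ U, Con U z z'

/-- `U` hooks at `A` with radius `r`: every connected set which joins the `r`-neighbourhood of `A` to
distance `3 r` meets `U`. -/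
def Hok (U : Set V) (A : V) (r : ℕ) : Prop :=
  ∀ (W : Set V) (u v : V), Con W u v → sd A u ≤ r → 3 * r ≤ sd A v → (U ∩ W).Nonempty

/-- Loops around all the cells of a list (centre, size). -/
def Lps (c : V → Bool) (k : Bool) (Ls : List (V × ℕ)) : Prop :=
  ∀ q ∈ Ls, ∃ S, Loop c k q.1 q.2 S

/-- The region of the loops. -/
def regL (Ls : List (V × ℕ)) : Set V := {v | ∃ q ∈ Ls, sd q.1 v < 3 * q.2}

/-- The centres of the cells of size `ℓ` of the segment with start `q.1`, direction `q.2.1`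
(`0` right, `1` up, `2` left, `3` down) and `q.2.2` steps of length `2 ℓ`. -/
def scel (ℓ : ℕ) (q : V × ℕ × ℕ) : List V :=
  (List.range (q.2.2 + 1)).map fun t => zpt q.1 (2 * t * ℓ) q.2.1

/-- Every segment (except the last one of the list) starts at a cell of a later one of the list. -/
def Jnd (ℓ : ℕ) : List (V × ℕ × ℕ) → Prop
  | [] => True
  | q :: s => (s = [] ∨ q.1 ∈ s.flatMap (scel ℓ)) ∧ Jnd ℓ s

/-- A wire: cells of size `l` along the segments `sg`, and large loops `bg` at some cells. -/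
structure Wire where
  /-- size of the cells -/
  l : ℕ
  /-- segments -/
  sg : List (V × ℕ × ℕ)
  /-- large loops -/
  bg : List (V × ℕ)

/-- Centres of the cells. -/
def Wire.cel (w : Wire) : List V := w.sg.flatMap (scel w.l)

/-- All loops of the wire. -/
def Wire.all (w : Wire) : List (V × ℕ) := (w.cel.map fun g => (g, w.l)) ++ w.bg

/-- A connected wire. -/
def Wire.ok (w : Wire) : Prop :=
  1 ≤ w.l ∧ w.sg ≠ [] ∧ Jnd w.l w.sg ∧ ∀ q ∈ w.bg, (∃ g ∈ w.cel, sd q.1 g + 3 * w.l ≤ q.2) ∧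
    ∃ g ∈ w.cel, 3 * q.2 + 3 * w.l ≤ sd q.1 g

/-- A wire with all its loops gives a connected set which hooks at all its cells. Proof: choose a
loop `S q` for every `q ∈ w.all`, `U = ⋃ S q`. `DP.LC_stmt`, `DP.LN_stmt` (neighbouring cells of a
segment), `Jnd`; the chain of small loops is a connected set which crosses the large loops
(`DP.LH_stmt`); `Hok` is `DP.LH_stmt`. -/
def PP10_stmt : Prop :=
  ∀ (c : V → Bool) (k : Bool) (w : Wire), w.ok → Lps c k w.all →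
    ∃ U : Set V, CnS c k (regL w.all) U ∧ ∀ q ∈ w.all, Hok U q.1 q.2

/-- Probability, locality, monotonicity of loops (`TFK_stmt` of helper61 / `Bfkg_stmt`). -/
def PP11_stmt : Prop :=
  ∀ (c₀ : ℝ) (k : Bool) (Ls : List (V × ℕ)), 0 ≤ c₀ →
    (∀ q ∈ Ls, c₀ ≤ Pr (Ev fun c => ∃ S, Loop c k q.1 q.2 S)) →
      c₀ ^ Ls.length ≤ Pr (Ev fun c => Lps c k Ls) ∧ Loc (Ev fun c => Lps c k Ls) (regL Ls) ∧
        Mon k (Ev fun c => Lps c k Ls)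

/-- Gluing in probability: `Bgen_stmt` with `ρ = 0` (`Bzero_stmt`), `Sp`, `Sm` the sets of the sites
whose bricks meet `B`, `B'`, and `S` the rest. -/
def PP12_stmt : Prop :=
  ∀ (X Ep Em Up Um : Set (V → Bool)) (A Ap Am B B' : Set V), Loc X A → Loc Ep Ap → Loc Em Am →
    Loc Up B → Loc Um B' → Mon true Ep → Mon false Em → Mon true Up → Mon false Um →
    BDis B B' → BDis A B → BDis A B' → BDis Ap B' → BDis Am B →
      Pr (X ∩ (Ep ∩ Em)) * (Pr Up * Pr Um) ≤ Pr (X ∩ (Ep ∩ Em ∩ (Up ∩ Um)))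

/-! ## The concrete wires

`e = true`: right respectively up, `e = false`: left respectively down. -/

/-- Direction right or left. -/
def dre (e : Bool) : ℕ := if e = true then 0 else 2
/-- Direction up or down. -/
def due (e : Bool) : ℕ := if e = true then 1 else 3
/-- Sign. -/
def sge (e : Bool) : ℤ := if e = true then 1 else -1

/-- Black hub: from the standard point (of four) `(± 32 ℓ, 0)` to the standard points (of six)
`(± 256 ℓ, 128 ℓ)`, `(± 256 ℓ, - 128 ℓ)`. -/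
def hubB (z : V) (ℓ : ℕ) (e : Bool) : Wire where
  l := ℓ
  sg := [((z.1 + sge e * (128 * ℓ), z.2 - 128 * ℓ), dre e, 64),
    ((z.1 + sge e * (128 * ℓ), z.2 + 128 * ℓ), dre e, 64),
    ((z.1 + sge e * (128 * ℓ), z.2), 3, 64), ((z.1 + sge e * (128 * ℓ), z.2), 1, 64),
    ((z.1 + sge e * (32 * ℓ), z.2), dre e, 48)]
  bg := [((z.1 + sge e * (256 * ℓ), z.2 + 128 * ℓ), 8 * ℓ),
    ((z.1 + sge e * (256 * ℓ), z.2 - 128 * ℓ), 8 * ℓ)]

/-- White wire from `(0, ± 32 ℓ)` to `(0, ± 256 ℓ)` (inner and outer hub). -/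
def hubW (z : V) (ℓ : ℕ) (e : Bool) : Wire where
  l := ℓ
  sg := [((z.1, z.2 + sge e * (32 * ℓ)), due e, 112)]
  bg := [((z.1, z.2 + sge e * (256 * ℓ)), 8 * ℓ)]

/-- Black outer hub: from the standard points (of six) `(± 32 ℓ, 16 ℓ)`, `(± 32 ℓ, - 16 ℓ)` to the
standard point (of four) `(± 256 ℓ, 0)`. -/
def outB (x : V) (ℓ : ℕ) (e : Bool) : Wire where
  l := ℓ
  sg := [((x.1 + sge e * (64 * ℓ), x.2), dre e, 96),
    ((x.1 + sge e * (64 * ℓ), x.2 - 16 * ℓ), dre (!e), 16),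
    ((x.1 + sge e * (64 * ℓ), x.2 + 16 * ℓ), 3, 16),
    ((x.1 + sge e * (32 * ℓ), x.2 + 16 * ℓ), dre e, 16)]
  bg := [((x.1 + sge e * (256 * ℓ), x.2), 8 * ℓ)]

/-- Upper (lower) black wire from `x` to `y = x + (32 S ℓ, 0)`. -/
def midX (x : V) (ℓ S : ℕ) (e : Bool) : Wire where
  l := ℓ
  sg := [((x.1 + 32 * ℓ, x.2 + sge e * (16 * ℓ)), 0, 16 * S - 32)]
  bg := []

/-- Upper (lower) black wire from `y` to the right standard points of radius `32 S ^ 3 ℓ`. -/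
def midY (x : V) (ℓ S : ℕ) (e : Bool) : Wire where
  l := ℓ
  sg := [((x.1 + 64 * S * ℓ, x.2 + sge e * (16 * S ^ 3 * ℓ)), 0, 16 * S ^ 3 - 32 * S),
    ((x.1 + 64 * S * ℓ, x.2 + sge e * (16 * ℓ)), due e, 8 * (S ^ 3 - 1)),
    ((x.1 + 32 * S * ℓ + 32 * ℓ, x.2 + sge e * (16 * ℓ)), 0, 16 * S - 16)]
  bg := [((x.1 + 32 * S ^ 3 * ℓ, x.2 + sge e * (16 * S ^ 3 * ℓ)), S ^ 3 * ℓ)]

/-- Upper (lower) black wire from `x` to the left standard points of radius `32 S ^ 3 ℓ`. -/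
def midZ (x : V) (ℓ S : ℕ) (e : Bool) : Wire where
  l := ℓ
  sg := [((x.1 - 64 * S * ℓ, x.2 + sge e * (16 * S ^ 3 * ℓ)), 2, 16 * S ^ 3 - 32 * S),
    ((x.1 - 64 * S * ℓ, x.2 + sge e * (16 * ℓ)), due e, 8 * (S ^ 3 - 1)),
    ((x.1 - 32 * ℓ, x.2 + sge e * (16 * ℓ)), 2, 32 * S - 16)]
  bg := [((x.1 - 32 * S ^ 3 * ℓ, x.2 + sge e * (16 * S ^ 3 * ℓ)), S ^ 3 * ℓ)]

/-- Upper (lower) white wire from `x` to the top (bottom) standard point of radius `32 S ^ 3 ℓ`, with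
a branch to `y`. -/
def midW (x : V) (ℓ S : ℕ) (e : Bool) : Wire where
  l := ℓ
  sg := [((x.1 + 32 * S * ℓ, x.2 + sge e * (32 * S * ℓ)), due (!e), 16 * S - 16),
    ((x.1, x.2 + sge e * (32 * S * ℓ)), 0, 16 * S),
    ((x.1, x.2 + sge e * (32 * ℓ)), due e, 16 * (S ^ 3 - 1))]
  bg := [((x.1, x.2 + sge e * (32 * S ^ 3 * ℓ)), S ^ 3 * ℓ)]

/-- The second centre. -/
def yc (x : V) (ℓ S : ℕ) : V := (x.1 + 32 * S * ℓ, x.2)

/-- The black wires. -/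
def Wblk (x : V) (ℓ₁ ℓ S ℓ₃ : ℕ) : List Wire :=
  [true, false].flatMap fun e => [hubB x ℓ₁ e, hubB (yc x ℓ S) ℓ₁ e, midX x ℓ S e, midY x ℓ S e,
    midZ x ℓ S e, outB x ℓ₃ e]

/-- The white wires. -/
def Wwht (x : V) (ℓ₁ ℓ S ℓ₃ : ℕ) : List Wire :=
  [true, false].flatMap fun e => [hubW x ℓ₁ e, hubW (yc x ℓ S) ℓ₁ e, midW x ℓ S e, hubW x ℓ₃ e]

/-- All black loops. -/
def Lblk (x : V) (ℓ₁ ℓ S ℓ₃ : ℕ) : List (V × ℕ) := (Wblk x ℓ₁ ℓ S ℓ₃).flatMap Wire.all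

/-- All white loops. -/
def Lwht (x : V) (ℓ₁ ℓ S ℓ₃ : ℕ) : List (V × ℕ) := (Wwht x ℓ₁ ℓ S ℓ₃).flatMap Wire.all

/-- The sizes: `m₀` and `n₀` are the innermost and the outermost radius. -/
def ParC (m₀ n₀ ℓ₁ ℓ S ℓ₃ : ℕ) : Prop :=
  64 ≤ m₀ ∧ m₀ ≤ 4 * ℓ₁ ∧ 64 * ℓ₁ ≤ ℓ ∧ 16 ≤ S ∧ 64 * (S ^ 3 * ℓ) ≤ ℓ₃ ∧ 2048 * ℓ₃ ≤ n₀

/-- The wires are connected, their number of loops depends only on `S`, the sizes of the loops are
at least `ℓ₁`. -/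
def PP13_stmt : Prop :=
  (∀ (x : V) (ℓ₁ ℓ S ℓ₃ : ℕ), 1 ≤ ℓ₁ → 1 ≤ ℓ → 4 ≤ S → 1 ≤ ℓ₃ →
    (∀ w ∈ Wblk x ℓ₁ ℓ S ℓ₃, w.ok) ∧ ∀ w ∈ Wwht x ℓ₁ ℓ S ℓ₃, w.ok) ∧
  (∀ (x : V) (ℓ₁ ℓ S ℓ₃ : ℕ), ℓ₁ ≤ ℓ → ℓ ≤ ℓ₃ → 1 ≤ S →
    (∀ q ∈ Lblk x ℓ₁ ℓ S ℓ₃, ℓ₁ ≤ q.2) ∧ ∀ q ∈ Lwht x ℓ₁ ℓ S ℓ₃, ℓ₁ ≤ q.2) ∧
  ∀ S : ℕ, ∃ M : ℕ, ∀ (x : V) (ℓ₁ ℓ ℓ₃ : ℕ), (Lblk x ℓ₁ ℓ S ℓ₃).length ≤ M ∧
    (Lwht x ℓ₁ ℓ S ℓ₃).length ≤ M

/-- Where the black loops are (`L = S ^ 3 ℓ`): the region of every wire is contained in a union of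
rectangles. With the next statement the only geometry of the wires which is used later. -/
def PP14_stmt : Prop :=
  ∀ (x : V) (ℓ S : ℕ) (e : Bool), 1 ≤ ℓ → 16 ≤ S →
    (∀ v ∈ regL (hubB x ℓ e).all,
      (29 * ℓ < sge e * (v.1 - x.1) ∧ sge e * (v.1 - x.1) < 131 * ℓ ∧ |v.2 - x.2| < 3 * ℓ) ∨
      (125 * ℓ < sge e * (v.1 - x.1) ∧ sge e * (v.1 - x.1) < 131 * ℓ ∧ |v.2 - x.2| < 131 * ℓ) ∨
      (125 * ℓ < sge e * (v.1 - x.1) ∧ sge e * (v.1 - x.1) < 259 * ℓ ∧ 125 * ℓ < |v.2 - x.2| ∧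
        |v.2 - x.2| < 131 * ℓ) ∨
      (232 * ℓ < sge e * (v.1 - x.1) ∧ sge e * (v.1 - x.1) < 280 * ℓ ∧ 104 * ℓ < |v.2 - x.2| ∧
        |v.2 - x.2| < 152 * ℓ)) ∧
    (∀ v ∈ regL (outB x ℓ e).all,
      (29 * ℓ < sge e * (v.1 - x.1) ∧ sge e * (v.1 - x.1) < 67 * ℓ ∧ 13 * ℓ < |v.2 - x.2| ∧
        |v.2 - x.2| < 19 * ℓ) ∨
      (61 * ℓ < sge e * (v.1 - x.1) ∧ sge e * (v.1 - x.1) < 67 * ℓ ∧ |v.2 - x.2| < 19 * ℓ) ∨
      (61 * ℓ < sge e * (v.1 - x.1) ∧ sge e * (v.1 - x.1) < 259 * ℓ ∧ |v.2 - x.2| < 3 * ℓ) ∨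
      (232 * ℓ < sge e * (v.1 - x.1) ∧ sge e * (v.1 - x.1) < 280 * ℓ ∧ |v.2 - x.2| < 24 * ℓ)) ∧
    (∀ v ∈ regL (midX x ℓ S e).all, 29 * ℓ < v.1 - x.1 ∧ v.1 - x.1 < 32 * S * ℓ - 29 * ℓ ∧
      13 * ℓ < sge e * (v.2 - x.2) ∧ sge e * (v.2 - x.2) < 19 * ℓ) ∧
    (∀ v ∈ regL (midY x ℓ S e).all,
      (32 * S * ℓ + 29 * ℓ < v.1 - x.1 ∧ v.1 - x.1 < 64 * S * ℓ + 3 * ℓ ∧
        13 * ℓ < sge e * (v.2 - x.2) ∧ sge e * (v.2 - x.2) < 19 * ℓ) ∨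
      (64 * S * ℓ - 3 * ℓ < v.1 - x.1 ∧ v.1 - x.1 < 64 * S * ℓ + 3 * ℓ ∧
        13 * ℓ < sge e * (v.2 - x.2) ∧ sge e * (v.2 - x.2) < 16 * S ^ 3 * ℓ + 3 * ℓ) ∨
      (64 * S * ℓ - 3 * ℓ < v.1 - x.1 ∧ v.1 - x.1 < 32 * S ^ 3 * ℓ + 3 * ℓ ∧
        16 * S ^ 3 * ℓ - 3 * ℓ < sge e * (v.2 - x.2) ∧
        sge e * (v.2 - x.2) < 16 * S ^ 3 * ℓ + 3 * ℓ) ∨
      (29 * S ^ 3 * ℓ < v.1 - x.1 ∧ v.1 - x.1 < 35 * S ^ 3 * ℓ ∧
        13 * S ^ 3 * ℓ < sge e * (v.2 - x.2) ∧ sge e * (v.2 - x.2) < 19 * S ^ 3 * ℓ)) ∧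
    (∀ v ∈ regL (midZ x ℓ S e).all,
      (29 * ℓ < x.1 - v.1 ∧ x.1 - v.1 < 64 * S * ℓ + 3 * ℓ ∧
        13 * ℓ < sge e * (v.2 - x.2) ∧ sge e * (v.2 - x.2) < 19 * ℓ) ∨
      (64 * S * ℓ - 3 * ℓ < x.1 - v.1 ∧ x.1 - v.1 < 64 * S * ℓ + 3 * ℓ ∧
        13 * ℓ < sge e * (v.2 - x.2) ∧ sge e * (v.2 - x.2) < 16 * S ^ 3 * ℓ + 3 * ℓ) ∨
      (64 * S * ℓ - 3 * ℓ < x.1 - v.1 ∧ x.1 - v.1 < 32 * S ^ 3 * ℓ + 3 * ℓ ∧
        16 * S ^ 3 * ℓ - 3 * ℓ < sge e * (v.2 - x.2) ∧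
        sge e * (v.2 - x.2) < 16 * S ^ 3 * ℓ + 3 * ℓ) ∨
      (29 * S ^ 3 * ℓ < x.1 - v.1 ∧ x.1 - v.1 < 35 * S ^ 3 * ℓ ∧
        13 * S ^ 3 * ℓ < sge e * (v.2 - x.2) ∧ sge e * (v.2 - x.2) < 19 * S ^ 3 * ℓ))

/-- Where the white loops are. -/
def PP15_stmt : Prop :=
  ∀ (x : V) (ℓ S : ℕ) (e : Bool), 1 ≤ ℓ → 16 ≤ S →
    (∀ v ∈ regL (hubW x ℓ e).all,
      (|v.1 - x.1| < 3 * ℓ ∧ 29 * ℓ < sge e * (v.2 - x.2) ∧ sge e * (v.2 - x.2) < 259 * ℓ) ∨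
      (|v.1 - x.1| < 24 * ℓ ∧ 232 * ℓ < sge e * (v.2 - x.2) ∧ sge e * (v.2 - x.2) < 280 * ℓ)) ∧
    (∀ v ∈ regL (midW x ℓ S e).all,
      (|v.1 - x.1| < 3 * ℓ ∧ 29 * ℓ < sge e * (v.2 - x.2) ∧
        sge e * (v.2 - x.2) < 32 * S ^ 3 * ℓ + 3 * ℓ) ∨
      (- 3 * ℓ < v.1 - x.1 ∧ v.1 - x.1 < 32 * S * ℓ + 3 * ℓ ∧
        32 * S * ℓ - 3 * ℓ < sge e * (v.2 - x.2) ∧ sge e * (v.2 - x.2) < 32 * S * ℓ + 3 * ℓ) ∨
      (32 * S * ℓ - 3 * ℓ < v.1 - x.1 ∧ v.1 - x.1 < 32 * S * ℓ + 3 * ℓ ∧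
        29 * ℓ < sge e * (v.2 - x.2) ∧ sge e * (v.2 - x.2) < 32 * S * ℓ + 3 * ℓ) ∨
      (|v.1 - x.1| < 3 * S ^ 3 * ℓ ∧ 29 * S ^ 3 * ℓ < sge e * (v.2 - x.2) ∧
        sge e * (v.2 - x.2) < 35 * S ^ 3 * ℓ))

/-! ## Supports of the blocks -/

/-- The loops of colour `k`. -/
def Lcol (k : Bool) (x : V) (ℓ₁ ℓ S ℓ₃ : ℕ) : List (V × ℕ) :=
  if k = true then Lblk x ℓ₁ ℓ S ℓ₃ else Lwht x ℓ₁ ℓ S ℓ₃

/-- The black and the white loops are far from each other. From `PP14`, `PP15` (`BDis.of_sd`). -/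
def PP16_stmt : Prop :=
  ∀ (x : V) (m₀ n₀ ℓ₁ ℓ S ℓ₃ : ℕ), ParC m₀ n₀ ℓ₁ ℓ S ℓ₃ →
    BDis (regL (Lblk x ℓ₁ ℓ S ℓ₃)) (regL (Lwht x ℓ₁ ℓ S ℓ₃))

/-- All loops are between the gates. From `PP14`, `PP15`. -/
def PP17_stmt : Prop :=
  ∀ (x : V) (m₀ n₀ ℓ₁ ℓ S ℓ₃ : ℕ) (k : Bool), ParC m₀ n₀ ℓ₁ ℓ S ℓ₃ →
    regL (Lcol k x ℓ₁ ℓ S ℓ₃) ⊆ ann x (29 * ℓ₁) (280 * ℓ₃) ∧
      regL (Lcol k x ℓ₁ ℓ S ℓ₃) ⊆ {v | 29 * ℓ₁ ≤ sd (yc x ℓ S) v}

/-- The arms of colour `k` of the blocks with four arms (inner gate, core, outer gate) avoid the loops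
of the other colour. From `PP14`, `PP15`: near the block these loops are in the forbidden boxes. -/
def PP18_stmt : Prop :=
  ∀ (x : V) (m₀ n₀ ℓ₁ ℓ S ℓ₃ : ℕ) (k : Bool), ParC m₀ n₀ ℓ₁ ℓ S ℓ₃ →
    BDis (box x (32 * ℓ₁) \ opp 4 (zpt x (32 * ℓ₁)) (4 * ℓ₁) k) (regL (Lcol (!k) x ℓ₁ ℓ S ℓ₃)) ∧
    BDis (box (yc x ℓ S) (32 * ℓ₁) \ opp 4 (zpt (yc x ℓ S) (32 * ℓ₁)) (4 * ℓ₁) k)
      (regL (Lcol (!k) x ℓ₁ ℓ S ℓ₃)) ∧
    BDis ({v | 256 * ℓ₃ ≤ sd x v} \ opp 4 (zpt x (256 * ℓ₃)) (32 * ℓ₃) k)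
      (regL (Lcol (!k) x ℓ₁ ℓ S ℓ₃))

/-- The same for the three annuli with six arms (`Rg .. i ⊆ RgC .. (kol6 i)` is `SixC_Rg_sub`). -/
def PP19_stmt : Prop :=
  ∀ (x : V) (m₀ n₀ ℓ₁ ℓ S ℓ₃ : ℕ) (k : Bool), ParC m₀ n₀ ℓ₁ ℓ S ℓ₃ →
    BDis (RgC x (256 * ℓ₁) (32 * ℓ) k) (regL (Lcol (!k) x ℓ₁ ℓ S ℓ₃)) ∧
    BDis (RgC (yc x ℓ S) (256 * ℓ₁) (32 * ℓ) k) (regL (Lcol (!k) x ℓ₁ ℓ S ℓ₃)) ∧
    BDis (RgC x (32 * (S ^ 3 * ℓ)) (32 * ℓ₃) k) (regL (Lcol (!k) x ℓ₁ ℓ S ℓ₃))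

/-! ## The blocks -/

/-- Four standard arms of colour `k` between the radii `m` and `n`. -/
def Mk4 (c : V → Bool) (x : V) (m n : ℕ) (k : Bool) : Prop :=
  MrkC c 4 true x n (Dmark 4 x m) (zpt x n) (n / 64) (n / 8) k

/-- Core, black part: a black connection between the right and the left standard point. -/
def CoB (c : V → Bool) (y : V) (n : ℕ) : Prop :=
  ∃ p ∈ bd y n, ∃ u ∈ bd y n, sd (zpt y n 0) p ≤ n / 64 ∧ sd (zpt y n 2) u ≤ n / 64 ∧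
    Conn c true (box y n \ opp 4 (zpt y n) (n / 8) true) p u

/-- Core, white part: recolouring one brick gives a white connection between the upper and the lower
standard point. -/
def CoW (c : V → Bool) (y : V) (n : ℕ) : Prop :=
  ∃ z : V, (z.1 + z.2) % 2 = 0 ∧ sd y z ≤ n ∧ ∃ p ∈ bd y n, ∃ u ∈ bd y n,
    sd (zpt y n 1) p ≤ n / 64 ∧ sd (zpt y n 3) u ≤ n / 64 ∧
      Conn (rc c z false) false (box y n \ opp 4 (zpt y n) (n / 8) false) p u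

/-- Locality and monotonicity of the core (for the six arms see `SxB_loc`, `SxW_loc`, `SxB_mon`,
`SxW_mon`). -/
def PP20_stmt : Prop :=
  (∀ (y : V) (n : ℕ), Loc (Ev fun c => CoB c y n) (box y n \ opp 4 (zpt y n) (n / 8) true) ∧
    Mon true (Ev fun c => CoB c y n)) ∧
  (∀ (y : V) (n : ℕ), Loc (Ev fun c => CoW c y n) (box y n \ opp 4 (zpt y n) (n / 8) false) ∧
    Mon false (Ev fun c => CoW c y n))

/-- All the black arms. -/
def ArB (c : V → Bool) (x : V) (m₀ n₀ ℓ₁ ℓ S ℓ₃ : ℕ) : Prop :=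
  Mk4 c x m₀ (32 * ℓ₁) true ∧ CoB c (yc x ℓ S) (32 * ℓ₁) ∧ SxB c x (256 * ℓ₁) (32 * ℓ) ∧
    SxB c (yc x ℓ S) (256 * ℓ₁) (32 * ℓ) ∧ SxB c x (32 * (S ^ 3 * ℓ)) (32 * ℓ₃) ∧
      Mk4 c x (256 * ℓ₃) n₀ true

/-- All the white arms. -/
def ArW (c : V → Bool) (x : V) (m₀ n₀ ℓ₁ ℓ S ℓ₃ : ℕ) : Prop :=
  Mk4 c x m₀ (32 * ℓ₁) false ∧ CoW c (yc x ℓ S) (32 * ℓ₁) ∧ SxW c x (256 * ℓ₁) (32 * ℓ) ∧
    SxW c (yc x ℓ S) (256 * ℓ₁) (32 * ℓ) ∧ SxW c x (32 * (S ^ 3 * ℓ)) (32 * ℓ₃) ∧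
      Mk4 c x (256 * ℓ₃) n₀ false

/-! ## Black wiring (deterministic) -/

/-- Two tracks without common brick between two hubs: after recolouring one brick (not in the hubs)
one of them is intact. -/
def PP21_stmt : Prop :=
  ∀ (c : V → Bool) (w : V) (R H H' : Set V) (T : Bool → Set V), CnS c true R H → CnS c true R H' →
    (∀ e, CnS c true R (T e) ∧ (H ∩ T e).Nonempty ∧ (T e ∩ H').Nonempty) →
    BDis (T true) (T false) → (∀ v ∈ H ∪ H', br v ≠ br w) →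
      ∃ U : Set V, CnS (rc c w false) true R U ∧ H ⊆ U ∧ H' ⊆ U

/-- Six arms as connected sets `U i` with the end points `p ∈ bd x m`, `u ∈ bd x n`. -/
def Legs (c : V → Bool) (x : V) (m n : ℕ) (U : ℕ → Set V) : Prop :=
  BDis (U 0) (U 1) ∧ BDis (U 3) (U 4) ∧ ∀ i < 6, kol6 i = true →
    CnS c true (Rg x m n i) (U i) ∧ ∃ p ∈ U i, ∃ u ∈ U i, p ∈ bd x m ∧ u ∈ bd x n ∧
      sd (zp6 x m i) p ≤ m / 64 ∧ sd (zp6 x n i) u ≤ n / 64

/-- Replace `U i` by the component of `p` in it. -/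
def PP22_stmt : Prop :=
  ∀ (c : V → Bool) (x : V) (m n : ℕ), SxB c x m n → ∃ U : ℕ → Set V, Legs c x m n U

/-- The two tracks from `x` to `y` (upper: `e = true`): the arm `1` of `x` (`0` if lower), the wire,
the arm `3` of `y` (`4`). Connected by `Hok` at the two standard points with radius `ℓ`. No common
brick: arms of the same annulus by `Legs`; an arm and the other wire: near the annulus this wire is in
the box around the other standard point (`PP14`), which the arm avoids (`Rg`, `conf`); the wires: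
different sides of the row `x.2`. -/
def PP23_stmt : Prop :=
  ∀ (c : V → Bool) (x : V) (m₀ n₀ ℓ₁ ℓ S ℓ₃ : ℕ) (Ux Uy : ℕ → Set V) (M : Bool → Set V),
    ParC m₀ n₀ ℓ₁ ℓ S ℓ₃ → Legs c x (256 * ℓ₁) (32 * ℓ) Ux →
    Legs c (yc x ℓ S) (256 * ℓ₁) (32 * ℓ) Uy →
    (∀ e, CnS c true (regL (midX x ℓ S e).all) (M e) ∧ ∀ q ∈ (midX x ℓ S e).all, Hok (M e) q.1 q.2) →
    ∃ T : Bool → Set V, BDis (T true) (T false) ∧ ∀ e, CnS c true (ann x (29 * ℓ₁) (280 * ℓ₃)) (T e) ∧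
      Ux (if e = true then 1 else 0) ⊆ T e ∧ Uy (if e = true then 3 else 4) ⊆ T e

/-- The two tracks from `y` to the outer annulus (arms `1`, `0`; inner standard points `1`, `0` of the
outer annulus, large loops of size `S ^ 3 ℓ`). -/
def PP24_stmt : Prop :=
  ∀ (c : V → Bool) (x : V) (m₀ n₀ ℓ₁ ℓ S ℓ₃ : ℕ) (Uy Uo : ℕ → Set V) (M : Bool → Set V),
    ParC m₀ n₀ ℓ₁ ℓ S ℓ₃ → Legs c (yc x ℓ S) (256 * ℓ₁) (32 * ℓ) Uy →
    Legs c x (32 * (S ^ 3 * ℓ)) (32 * ℓ₃) Uo →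
    (∀ e, CnS c true (regL (midY x ℓ S e).all) (M e) ∧ ∀ q ∈ (midY x ℓ S e).all, Hok (M e) q.1 q.2) →
    ∃ T : Bool → Set V, BDis (T true) (T false) ∧ ∀ e, CnS c true (ann x (29 * ℓ₁) (280 * ℓ₃)) (T e) ∧
      Uy (if e = true then 1 else 0) ⊆ T e ∧ Uo (if e = true then 1 else 0) ⊆ T e

/-- The two tracks from `x` to the left of the outer annulus (arms `3`, `4`). -/
def PP25_stmt : Prop :=
  ∀ (c : V → Bool) (x : V) (m₀ n₀ ℓ₁ ℓ S ℓ₃ : ℕ) (Ux Uo : ℕ → Set V) (M : Bool → Set V),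
    ParC m₀ n₀ ℓ₁ ℓ S ℓ₃ → Legs c x (256 * ℓ₁) (32 * ℓ) Ux →
    Legs c x (32 * (S ^ 3 * ℓ)) (32 * ℓ₃) Uo →
    (∀ e, CnS c true (regL (midZ x ℓ S e).all) (M e) ∧ ∀ q ∈ (midZ x ℓ S e).all, Hok (M e) q.1 q.2) →
    ∃ T : Bool → Set V, BDis (T true) (T false) ∧ ∀ e, CnS c true (ann x (29 * ℓ₁) (280 * ℓ₃)) (T e) ∧
      Ux (if e = true then 3 else 4) ⊆ T e ∧ Uo (if e = true then 3 else 4) ⊆ T e

/-- The standard point (of four) above (`e = true`) or below. -/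
def tb4 (e : Bool) : ℕ := if e = true then 1 else 3

/-- All tracks together, for every recoloured brick `w`: `K₁` joins the right hub of `x` and the left
hub of `y`, `K₂` the left hub of `x` and the left outer hub, `K₃` the right hub of `y` and the right
outer hub. Proof: `PP10` for all black wires (`PP13`), `PP22`, `PP23`, `PP24`, `PP25`; the inner end
points of `Ux i` hook to the hub of `x` (`Hok` at the standard point `i` with radius `8 ℓ₁`): the right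
one for `i = 0, 1`, the left one for `i = 3, 4`; in the same way `Uy`; the outer end points of `Uo i`
hook to the outer hub. The hubs do not meet the brick of `w` (`PP14`, definition of `WS`). `PP21`. -/
def PP26_stmt : Prop :=
  ∀ (c : V → Bool) (x : V) (m₀ n₀ ℓ₁ ℓ S ℓ₃ : ℕ), ParC m₀ n₀ ℓ₁ ℓ S ℓ₃ →
    ArB c x m₀ n₀ ℓ₁ ℓ S ℓ₃ → Lps c true (Lblk x ℓ₁ ℓ S ℓ₃) → ∀ w : V,
      (w.1 + w.2) % 2 = 0 → w ∈ WS x (yc x ℓ S) (512 * ℓ₁) (16 * ℓ₃) → ∃ K₁ K₂ K₃ : Set V,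
        (CnS (rc c w false) true (ann x (29 * ℓ₁) (280 * ℓ₃)) K₁ ∧
          Hok K₁ (zpt x (32 * ℓ₁) 0) ℓ₁ ∧ Hok K₁ (zpt (yc x ℓ S) (32 * ℓ₁) 2) ℓ₁) ∧
        (CnS (rc c w false) true (ann x (29 * ℓ₁) (280 * ℓ₃)) K₂ ∧
          Hok K₂ (zpt x (32 * ℓ₁) 2) ℓ₁ ∧ Hok K₂ (zpt x (256 * ℓ₃) 2) (8 * ℓ₃)) ∧
        (CnS (rc c w false) true (ann x (29 * ℓ₁) (280 * ℓ₃)) K₃ ∧
          Hok K₃ (zpt (yc x ℓ S) (32 * ℓ₁) 0) ℓ₁ ∧ Hok K₃ (zpt x (256 * ℓ₃) 0) (8 * ℓ₃))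

/-- The black arms through the whole block for every recoloured brick. `PP26`; the arms of the two
gate blocks and the core do not meet the brick of `w`; the core joins `K₁` and `K₃`. The arm from the
inner point `i` ends at the point `i` or `i + 2` of radius `32 ℓ₁` (`MrkC`), hence meets `K₁` or `K₂`,
and the arms of the outer gate block which start at the points `0`, `2` of radius `256 ℓ₃` meet `K₃`,
`K₂`. The sets avoid the boxes at radius `m₀` and `n₀`. -/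
def PP27_stmt : Prop :=
  ∀ (c : V → Bool) (x w : V) (m₀ n₀ ℓ₁ ℓ S ℓ₃ : ℕ), ParC m₀ n₀ ℓ₁ ℓ S ℓ₃ →
    ArB c x m₀ n₀ ℓ₁ ℓ S ℓ₃ → Lps c true (Lblk x ℓ₁ ℓ S ℓ₃) → (w.1 + w.2) % 2 = 0 →
    w ∈ WS x (yc x ℓ S) (512 * ℓ₁) (16 * ℓ₃) → Mk4 (rc c w false) x m₀ n₀ true

/-! ## White wiring (deterministic) -/

/-- The white sets `K e` (`e = true`: containing the upper wire `midW`): for every colouring `c` with
the white arms of the three annuli and all the white loops. Proof: `PP10` for all white wires; the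
arms `2`, `5` of `x`, of `y` and of the outer annulus hook to `midW` (at the points `2`, `5` of radius
`32 ℓ` respectively `32 S ^ 3 ℓ`) and to the hubs. -/
def PP28_stmt : Prop :=
  ∀ (c : V → Bool) (x : V) (m₀ n₀ ℓ₁ ℓ S ℓ₃ : ℕ), ParC m₀ n₀ ℓ₁ ℓ S ℓ₃ →
    SxW c x (256 * ℓ₁) (32 * ℓ) → SxW c (yc x ℓ S) (256 * ℓ₁) (32 * ℓ) →
    SxW c x (32 * (S ^ 3 * ℓ)) (32 * ℓ₃) → Lps c false (Lwht x ℓ₁ ℓ S ℓ₃) →
      ∃ K : Bool → Set V, ∀ e : Bool,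
        CnS c false (ann x (29 * ℓ₁) (280 * ℓ₃)) (K e) ∧
        Hok (K e) (zpt x (32 * ℓ₁) (tb4 e)) ℓ₁ ∧
        Hok (K e) (zpt (yc x ℓ S) (32 * ℓ₁) (tb4 e)) ℓ₁ ∧
        Hok (K e) (zpt x (256 * ℓ₃) (tb4 e)) (8 * ℓ₃)

/-- The white arms through the whole block. From `PP28`, like `PP27` but simpler. -/
def PP29_stmt : Prop :=
  ∀ (c : V → Bool) (x : V) (m₀ n₀ ℓ₁ ℓ S ℓ₃ : ℕ), ParC m₀ n₀ ℓ₁ ℓ S ℓ₃ →
    ArW c x m₀ n₀ ℓ₁ ℓ S ℓ₃ → Lps c false (Lwht x ℓ₁ ℓ S ℓ₃) → Mk4 c x m₀ n₀ false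

/-- Standard arms of one colour are in different clusters. From `DP.OF_stmt`: the end points near the
four standard points of `bd x n` alternate (compare the proof of `DP.SF_stmt`,
`Pool/Agent/*/DP/SF.lean`), the arms of the other colour exist by `Std`. -/
def PP30_stmt : Prop :=
  ∀ (c : V → Bool) (k : Bool) (x u u' p p' : V) (m n : ℕ), Even (x.1 + x.2) → 64 ≤ m →
    2 * m ≤ n → Std c 4 true x n (Dmark 4 x m) → u ∈ bd x n → u' ∈ bd x n → p ∈ bd x m →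
    p' ∈ bd x m → sd (zpt x n (if k = true then 0 else 1)) u ≤ n / 64 →
    sd (zpt x n (if k = true then 2 else 3)) u' ≤ n / 64 → Conn c k (ann x m n) p u →
    Conn c k (ann x m n) p' u' → ¬ Conn c k (ann x m n) u u'

/-- The white arms of the outer gate block are connected inside after recolouring the brick `z` of the
core: `PP28` for `rc c z false` (white events are decreasing), the core path meets `K true` and
`K false`; the arms of the outer gate block, restricted to the part before the first visit of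
`bd x n₂`, meet `K true` and `K false`. They are not connected in the annulus of the gate by `PP30`.
(`n₀ = 2 n₂`; `m₁ ≤ 29 ℓ₁`.) -/
def PP31_stmt : Prop :=
  ∀ (c : V → Bool) (x : V) (m₀ n₂ m₁ ℓ₁ ℓ S ℓ₃ : ℕ), ParC m₀ (2 * n₂) ℓ₁ ℓ S ℓ₃ →
    Even (x.1 + x.2) → m₁ ≤ 29 * ℓ₁ → Mk4 c x (256 * ℓ₃) (2 * n₂) true →
    ArW c x m₀ (2 * n₂) ℓ₁ ℓ S ℓ₃ → Lps c false (Lwht x ℓ₁ ℓ S ℓ₃) →
      ∃ z : V, (z.1 + z.2) % 2 = 0 ∧ sd (yc x ℓ S) z ≤ 32 * ℓ₁ ∧ ∃ u u' p p' : V,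
        u ∈ bd x n₂ ∧ u' ∈ bd x n₂ ∧ p ∈ bd x (512 * ℓ₃) ∧ p' ∈ bd x (512 * ℓ₃) ∧
        Conn c false (ann x (512 * ℓ₃) n₂) p u ∧ Conn c false (ann x (512 * ℓ₃) n₂) p' u' ∧
        ¬ Conn c false (ann x (512 * ℓ₃) n₂) u u' ∧ Conn (rc c z false) false (ann x m₁ n₂) u u'

/-- A gate whose two white crossing clusters are connected inside the block: no four arms through the
block. Proof: `GD1` for `c'` (radii `m₁`, `n₂` and `m₂`, `n₂`): four white arms through the block give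
two white crossing clusters of the block which are not connected, with points `v₁, v₂` on `bd x n₂`
which are crossing points of the gate; the gate has exactly two white crossing clusters, those of
`u`, `u'`, so `v₁`, `v₂` are connected to `u`, `u'` in some order. -/
def PP32_stmt : Prop :=
  ∀ (c' : V → Bool) (x u u' p p' : V) (m₁ m₂ n₂ : ℕ), Even (x.1 + x.2) → 1 ≤ m₁ → m₁ ≤ m₂ →
    m₂ < n₂ → Gate c' x m₂ n₂ → u ∈ bd x n₂ → u' ∈ bd x n₂ → p ∈ bd x m₂ → p' ∈ bd x m₂ →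
    Conn c' false (ann x m₂ n₂) p u → Conn c' false (ann x m₂ n₂) p' u' →
    ¬ Conn c' false (ann x m₂ n₂) u u' → Conn c' false (ann x m₁ n₂) u u' →
      ¬ four c' x m₁ n₂

/-- DETERMINISTIC CONCLUSION. `PP27`, `PP29`, `DP.SF_stmt`, `DP.MF_stmt`, `DP.AM_stmt` for the four arms
of `rc c w false`; `Mk4 c .. true` from `Mk4 (rc c w false) .. true` for one `w` (monotonicity); `PP31`,
`PP32` (the gate is far from `z`). -/
def PP33_stmt : Prop :=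
  ∀ (c : V → Bool) (x : V) (m₀ n₂ ℓ₁ ℓ S ℓ₃ : ℕ), ParC m₀ (2 * n₂) ℓ₁ ℓ S ℓ₃ → Even (x.1 + x.2) →
    Gate c x (2 * m₀) (16 * ℓ₁) → Gate c x (512 * ℓ₃) n₂ → ArB c x m₀ (2 * n₂) ℓ₁ ℓ S ℓ₃ →
    ArW c x m₀ (2 * n₂) ℓ₁ ℓ S ℓ₃ → Lps c true (Lblk x ℓ₁ ℓ S ℓ₃) → Lps c false (Lwht x ℓ₁ ℓ S ℓ₃) →
      YCv c x (yc x ℓ S) (2 * m₀) (16 * ℓ₁) (512 * ℓ₃) n₂ (512 * ℓ₁) (16 * ℓ₃) ∧
        Std c 4 true x (2 * n₂) (Dmark 4 x m₀)

/-! ## Probability -/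

/-- Loops are free of charge. `PP12` with `X` the two gates, `Ep`, `Em` the black and white arms
(`GXL_stmt`, `PP20`, `SxB_loc`, `SxW_loc` for locality and monotonicity, `PP16` ... `PP19` for the distances), `PP11` with
`C1_stmt` (`ℓ₀ ≤ ℓ₁`), `PP13` (number and sizes of the loops). -/
def PP34_stmt : Prop :=
  ∀ S : ℕ, 16 ≤ S → ∃ (c : ℝ) (k₁ : ℕ), 0 < c ∧ ∀ (x : V) (m₀ n₂ ℓ₁ ℓ ℓ₃ : ℕ), k₁ ≤ ℓ₁ →
    ParC m₀ (2 * n₂) ℓ₁ ℓ S ℓ₃ →
      c * Pr (Ev fun c => (Gate c x (2 * m₀) (16 * ℓ₁) ∧ Gate c x (512 * ℓ₃) n₂) ∧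
          ArB c x m₀ (2 * n₂) ℓ₁ ℓ S ℓ₃ ∧ ArW c x m₀ (2 * n₂) ℓ₁ ℓ S ℓ₃) ≤
        Pr (Ev fun c => (Gate c x (2 * m₀) (16 * ℓ₁) ∧ Gate c x (512 * ℓ₃) n₂) ∧
          (ArB c x m₀ (2 * n₂) ℓ₁ ℓ S ℓ₃ ∧ ArW c x m₀ (2 * n₂) ℓ₁ ℓ S ℓ₃) ∧
            Lps c true (Lblk x ℓ₁ ℓ S ℓ₃) ∧ Lps c false (Lwht x ℓ₁ ℓ S ℓ₃))

/-- Independence of the six blocks (pairwise distance at least two; `Bindep_stmt`, `Bzero_stmt` or
`C2_indep` of helper61/TP/C12.lean). -/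
def PP35_stmt : Prop :=
  ∀ (x : V) (m₀ n₂ ℓ₁ ℓ S ℓ₃ : ℕ), ParC m₀ (2 * n₂) ℓ₁ ℓ S ℓ₃ →
    Pr (Ev fun c => (Gate c x (2 * m₀) (16 * ℓ₁) ∧ Gate c x (512 * ℓ₃) n₂) ∧
        ArB c x m₀ (2 * n₂) ℓ₁ ℓ S ℓ₃ ∧ ArW c x m₀ (2 * n₂) ℓ₁ ℓ S ℓ₃) =
      Pr (Ev fun c => Gate c x (2 * m₀) (16 * ℓ₁) ∧ Std c 4 true x (32 * ℓ₁) (Dmark 4 x m₀)) *
      Pr (Ev fun c => CoB c (yc x ℓ S) (32 * ℓ₁) ∧ CoW c (yc x ℓ S) (32 * ℓ₁)) *
      Pr (Ev fun c => SxB c x (256 * ℓ₁) (32 * ℓ) ∧ SxW c x (256 * ℓ₁) (32 * ℓ)) *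
      Pr (Ev fun c => SxB c (yc x ℓ S) (256 * ℓ₁) (32 * ℓ) ∧
        SxW c (yc x ℓ S) (256 * ℓ₁) (32 * ℓ)) *
      Pr (Ev fun c => SxB c x (32 * (S ^ 3 * ℓ)) (32 * ℓ₃) ∧
        SxW c x (32 * (S ^ 3 * ℓ)) (32 * ℓ₃)) *
      Pr (Ev fun c => Gate c x (512 * ℓ₃) n₂ ∧ Std c 4 true x (2 * n₂) (Dmark 4 x (256 * ℓ₃)))

/-- The core (from `PK7`). -/
def CORE_stmt : Prop :=
  ∃ (c : ℝ) (k₀ : ℕ), 0 < c ∧ ∀ (y : V) (p : ℕ), (y.1 + y.2) % 2 = 0 → k₀ ≤ p →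
    c ≤ Pr (Ev fun c => CoB c y (2 ^ p) ∧ CoW c y (2 ^ p))

/-- THE LOWER BOUND. `PP33`, `PP34`, `PP35` with `m₀ = 2 ^ (p - g - 5)`, `ℓ₁ = 2 ^ (p - 8)`,
`ℓ = 2 ^ (p + m - 5)`, `S = 2 ^ s`, `ℓ₃ = 2 ^ (p + m + 3 s + m - 5)`,
`n₂ = 2 ^ (p + m + 3 s + m + 4 + g)`; `K.GSB_stmt` and `K.QAA_stmt` for the two gate blocks (a gate of
fixed ratio has probability bounded from below), `CORE_stmt`, `TH3_stmt` for the three annuli
(`a = p + 1`, `b = p + m - 1`, and `a = p + m + 3 s + 1`, `b = p + m + 3 s + m - 1`), and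
`Pr (F4 x lo hi) ≤ a4 p (p + m) * a4 (p + m + 3 s) (p + m + 3 s + m)` (independence, `UI7`). -/
def PP36_stmt : Prop := TH3_stmt → CORE_stmt → PL_stmt

/-! ## The core -/

/-- EXPLORATION INEQUALITY. The coins in `Λ` (even sites) are random (from `b'`), the other ones are
those of `b`. Proof: for a finite set `Z` of even sites with `Z ∩ Λ = ∅`, `b z = true` for `z ∈ Z` and
such that for every `z ∈ Z` a site of `R` in the brick of `z` is adjacent to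
`C = {v | Con {v | v ∈ R, br v ∉ Λ, col b v = false} u v}` one shows, by induction on the number of
elements of `Λ` (for all `b`, `Z`), with `c = col (mx Λ b b')` and `c^Z` = `c` with the bricks of `Z` white,
`P (no connection) * P (connection for c^Z) ≤ P (no connection, but a connection for some rc c z false, z ∈ Z ∪ Λ)`.
If no brick of `Λ` has a site of `R` adjacent to `C`: the cluster of `u` is `C` for every `b'`; if
`v ∈ C` the left side is zero; otherwise a connection for `c^Z` gives one for `rc c z false`, `z` the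
brick of the last site of the path in the bricks of `Z`. If `z ∈ Λ` is adjacent to `C`: condition on the
coin of `z`. White: `Λ \ {z}`, same `Z`; black: `Λ \ {z}`, `Z ∪ {z}`. With
`K = P (connection for c^Z | z white)` both cases give at least `P (no connection | coin of z) * K`,
and `K ≥ P (connection for c^Z)`. The statement is `Z = ∅`. -/
def PK1_stmt : Prop :=
  ∀ (Λ : Finset V) (R : Set V) (u v : V) (b : V → Bool), (∀ z ∈ Λ, (z.1 + z.2) % 2 = 0) →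
    br u ∉ Λ →
      Pr {b' | ¬ Conn (col (mx (Λ : Set V) b b')) false R u v} *
          Pr {b' | Conn (col (mx (Λ : Set V) b b')) false R u v} ≤
        Pr {b' | ¬ Conn (col (mx (Λ : Set V) b b')) false R u v ∧
          ∃ z ∈ Λ, Conn (rc (col (mx (Λ : Set V) b b')) z false) false R u v}

/-- The black wire of the core (from the left to the right standard point of radius `32 ℓ`). -/
def coreB (y : V) (ℓ : ℕ) : Wire where
  l := ℓ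
  sg := [((y.1 - 32 * ℓ, y.2), 0, 32)]
  bg := []

/-- The white wire of the core. -/
def coreW (y : V) (ℓ : ℕ) : Wire where
  l := ℓ
  sg := [((y.1, y.2 - 32 * ℓ), 1, 32)]
  bg := []

/-- The event of the core: gate of ratio `2 ^ g` with standard arms. -/
def GtC (g : ℕ) (y : V) (a : ℕ) : Set (V → Bool) :=
  (Ev fun c => Gate c y (2 ^ a) (2 ^ (a + g))) ∩ B4 y (a - 1) (a + g + 1)

/-- Bit of a gate with a wire inside. `PP10` for the wire, `PP30` (arms of the same colour are in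
different clusters of the gate), `hb` from the connection; for the white wire the same for `fl c`
and `DUAL_stmt`. (`2 ^ (a - 1) = 32 * 2 ^ (a - 6)`.) -/
def PK2_stmt : Prop :=
  ∀ (b : V → Bool) (y : V) (g a : ℕ), 1 ≤ g → 12 ≤ a → (y.1 + y.2) % 2 = 0 → b ∈ GtC g y a →
    (Lps (col b) true (coreB y (2 ^ (a - 6))).all → hb (col b) y (2 ^ a) (2 ^ (a + g))) ∧
    (Lps (col b) false (coreW y (2 ^ (a - 6))).all → ¬ hb (col b) y (2 ^ a) (2 ^ (a + g)))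

/-- From the bit to the core. `PP30`: the two black standard arms are in the two crossing clusters of
the gate (`Gate`), which are connected in `box y (2 ^ (a + g))` by `hb`; after recolouring `z` the bit is
zero, so (`DUAL_stmt`) the two white standard arms are connected. -/
def PK3_stmt : Prop :=
  ∀ (b : V → Bool) (y : V) (g a : ℕ), 1 ≤ g → 12 ≤ a → (y.1 + y.2) % 2 = 0 → b ∈ GtC g y a →
    hb (col b) y (2 ^ a) (2 ^ (a + g)) →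
    (∃ z : V, (z.1 + z.2) % 2 = 0 ∧ sd y z + 2 ≤ 2 ^ (a - 1) ∧
      ¬ hb (rc (col b) z false) y (2 ^ a) (2 ^ (a + g))) →
      CoB (col b) y (2 ^ (a + g + 1)) ∧ CoW (col b) y (2 ^ (a + g + 1))

/-- The coins inside the gate. -/
def Inr (y : V) (a : ℕ) : Set V := {v | sd y v + 2 ≤ 2 ^ (a - 1)}

/-- Conditional lower bound. Let `b` be in the gate event and `u`, `v ∈ bd y (2 ^ (a + g))` white
crossing points of the gate in different clusters (`GD1`). For every colouring `c'` which agrees with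
`col b` outside the inner box: `hb c'` is false if and only if `u`, `v` are connected by white in
`box y (2 ^ (a + g))` (`DUAL_stmt` and exactly two white crossing clusters). `PK1` with `Λ` the even sites
of `Inr y a`, `PK3`. -/
def PK4_stmt : Prop :=
  ∀ (b : V → Bool) (y : V) (g a : ℕ), 1 ≤ g → 12 ≤ a → (y.1 + y.2) % 2 = 0 → b ∈ GtC g y a →
    Pr {b' | hb (col (mx (Inr y a) b b')) y (2 ^ a) (2 ^ (a + g))} *
        Pr {b' | ¬ hb (col (mx (Inr y a) b b')) y (2 ^ a) (2 ^ (a + g))} ≤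
      Pr {b' | CoB (col (mx (Inr y a) b b')) y (2 ^ (a + g + 1)) ∧
        CoW (col (mx (Inr y a) b b')) y (2 ^ (a + g + 1))}

open Classical in
/-- Relocation: exchange of the box `I` and its translate by `(D, 0)`. -/
noncomputable def rlf (I : Set V) (D : ℕ) (v : V) : V :=
  if v ∈ I then (v.1 + D, v.2) else if (v.1 - D, v.2) ∈ I then (v.1 - D, v.2) else v

/-- Two copies. `PP12` with `X` = gate, `Ep`, `Em` = black and white standard arms (`GXL_stmt`),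
`Up` = black loops of `coreB`, `Um` = white loops of `coreW` for the relocated configuration
`b ∘ rlf`: it depends on the colours in `rlf` of the region of `coreW`, which is disjoint from the
region of `coreB` (they meet only inside `Inr`). `PP11`, `Bsym_stmt` with `ρ = 0` (`rlf` is an
involution), `C1_stmt`, `K.GSB_stmt`, `K.QAA_stmt`. -/
def PK5_stmt : Prop :=
  ∃ (c : ℝ) (g k₀ : ℕ), 0 < c ∧ 1 ≤ g ∧ ∀ (y : V) (a : ℕ), (y.1 + y.2) % 2 = 0 → k₀ ≤ a →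
    c ≤ Pr {b | b ∈ GtC g y a ∧ Lps (col b) true (coreB y (2 ^ (a - 6))).all ∧
      Lps (col fun v => b (rlf (Inr y a) (2 ^ (a + g + 4)) v)) false (coreW y (2 ^ (a - 6))).all}

/-- Two copies and averages (Fubini, `UJ5_stmt`). `G`, `H`, `H'` depend on the coins in `box y B`, `G`
does not depend on the coins in `I ⊆ box y B`, `2 B < D`. Average first over the coins in `I`, then
over those in the translate of `I`. -/
def PK6_stmt : Prop :=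
  ∀ (G H H' : Set (V → Bool)) (y : V) (I : Set V) (B D : ℕ), 2 * B < D → I ⊆ box y B →
    DP.Dep G (box y B) → DP.Dep H (box y B) → DP.Dep H' (box y B) →
    (∀ b b' : V → Bool, (∀ v, v ∉ I → b v = b' v) → (b ∈ G ↔ b' ∈ G)) →
      Pr {b | b ∈ G ∧ b ∈ H ∧ (fun v => b (rlf I D v)) ∈ H'} =
        ∫ b, G.indicator 1 b * (Pr {b' | mx I b b' ∈ H} * Pr {b' | mx I b b' ∈ H'}) ∂P1

/-- The core. `PK5`, `PK2` (for `b` and for `b ∘ rlf`, which is in `GtC` too), `PK6`, `PK4`, and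
`∫ Pr {b' | mx I b b' ∈ E} = Pr E` (`UJ5_stmt`). `p = a + g + 1`. -/
def PK7_stmt : Prop := CORE_stmt

end TP
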